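import Pool.Agent.H10.SM.VC
import Pool.Agent.H44.SM.FS
import Pool.Agent.H84.SM.TL

set_option autoImplicit false
open Metric Set Filter Topology Pool.Agent.H7.UC Pool.Agent.H74.Tri

/-! MP_2e6055, SM: module SL (chart step). -/

namespace Pool.Agent.H93.SM

/-- inverse of a chart -/
theorem chart_inv {D : Set ℂ} {φ : ℂ → ℂ} (h : DiscChart D φ) :
    ∃ g : ℂ → ℂ, (∀ w ∈ closedBall (0:ℂ) 1, g (φ w) = w) ∧
      (∀ x ∈ closure D, g x ∈ closedBall (0:ℂ) 1 ∧ φ (g x) = x) ∧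
      ContinuousOn g (closure D) ∧ DifferentiableOn ℂ g D ∧ ∀ x ∈ D, g x ∈ ball (0:ℂ) 1 := by
  set g : ℂ → ℂ := Function.invFunOn φ (closedBall 0 1) with hg
  have hgφ : ∀ v ∈ closedBall (0:ℂ) 1, g (φ v) = v := fun v hv => h.inj.leftInvOn_invFunOn hv
  have hgm : ∀ x ∈ closure D, g x ∈ closedBall (0:ℂ) 1 := by
    intro x hx
    rw [← h.imgc] at hx
    exact Function.invFunOn_mem hx
  have hφg : ∀ x ∈ closure D, φ (g x) = x := by
    intro x hx
    rw [← h.imgc] at hx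
    exact Function.invFunOn_eq hx
  have hgc : ContinuousOn g (closure D) := by
    rw [← h.imgc]
    rw [continuousOn_iff_isClosed]
    intro t ht
    refine ⟨φ '' (closedBall 0 1 ∩ t), ?_, ?_⟩
    · apply IsCompact.isClosed
      apply IsCompact.image_of_continuousOn
      · exact (isCompact_closedBall 0 1).inter_right ht
      · exact h.cont.mono inter_subset_left
    · ext x
      constructor
      · rintro ⟨hx, v, hv, rfl⟩
        rw [mem_preimage, hgφ v hv] at hx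
        exact ⟨⟨v, ⟨hv, hx⟩, rfl⟩, ⟨v, hv, rfl⟩⟩
      · rintro ⟨⟨v, ⟨hv, hvt⟩, rfl⟩, -⟩
        refine ⟨?_, ⟨v, hv, rfl⟩⟩
        rw [mem_preimage, hgφ v hv]
        exact hvt
  have hgb : ∀ x ∈ D, g x ∈ ball (0:ℂ) 1 := by
    intro x hx
    rw [← h.img] at hx
    obtain ⟨v, hv, rfl⟩ := hx
    rw [hgφ v (ball_subset_closedBall hv)]
    exact hv
  have hgd : DifferentiableOn ℂ g D := by
    rw [← h.img]
    exact Pool.Agent.H83.Lo.differentiableOn_inv isOpen_ball h.diff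
      (h.inj.mono ball_subset_closedBall) fun v hv => hgφ v (ball_subset_closedBall hv)
  exact ⟨g, hgφ, fun x hx => ⟨hgm x hx, hφg x hx⟩, hgc, hgd, hgb⟩

/-- rotation of a chart -/
theorem chart_rot {D : Set ℂ} {φ : ℂ → ℂ} (h : DiscChart D φ) {c : ℂ} (hc : ‖c‖ = 1) :
    DiscChart D (fun w => φ (c * w)) := by
  have hc0 : c ≠ 0 := by
    intro h0
    rw [h0, norm_zero] at hc
    exact zero_ne_one hc
  have hcb : MapsTo (fun w : ℂ => c * w) (closedBall 0 1) (closedBall 0 1) := fun w hw => by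
    rw [mem_closedBall_zero_iff] at *; rw [norm_mul, hc, one_mul]; exact hw
  have hb : MapsTo (fun w : ℂ => c * w) (ball 0 1) (ball 0 1) := fun w hw => by
    rw [mem_ball_zero_iff] at *; rw [norm_mul, hc, one_mul]; exact hw
  have hib : (fun w : ℂ => c * w) '' ball 0 1 = ball 0 1 := by
    apply Subset.antisymm (image_subset_iff.2 hb)
    intro w hw
    refine ⟨c⁻¹ * w, ?_, by field_simp⟩
    rw [mem_ball_zero_iff] at *; rw [norm_mul, norm_inv, hc, inv_one, one_mul]; exact hw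
  have hicb : (fun w : ℂ => c * w) '' closedBall 0 1 = closedBall 0 1 := by
    apply Subset.antisymm (image_subset_iff.2 hcb)
    intro w hw
    refine ⟨c⁻¹ * w, ?_, by field_simp⟩
    rw [mem_closedBall_zero_iff] at *; rw [norm_mul, norm_inv, hc, inv_one, one_mul]; exact hw
  refine ⟨h.cont.comp (by fun_prop) hcb, ?_, h.diff.comp (by fun_prop) hb, ?_, ?_⟩
  · intro w hw w' hw' hww
    exact mul_left_cancel₀ hc0 (h.inj (hcb hw) (hcb hw') hww)
  · have : (fun w => φ (c * w)) '' ball 0 1 = φ '' ((fun w : ℂ => c * w) '' ball 0 1) := by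
      rw [image_image]
    rw [this, hib, h.img]
  · have : (fun w => φ (c * w)) '' closedBall 0 1 =
        φ '' ((fun w : ℂ => c * w) '' closedBall 0 1) := by
      rw [image_image]
    rw [this, hicb, h.imgc]

theorem convex_cell (f : Fc) : Convex ℝ (cell f) := by
  intro x hx y hy s t hs ht hst
  intro k
  have h1 := hx k
  have h2 := hy k
  have e : ((s • x + t • y - ctr f) * (starRingEnd ℂ) (om ^ (k : ℕ))).re =
      s * ((x - ctr f) * (starRingEnd ℂ) (om ^ (k : ℕ))).re +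
      t * ((y - ctr f) * (starRingEnd ℂ) (om ^ (k : ℕ))).re := by
    have : (s • x + t • y - ctr f) * (starRingEnd ℂ) (om ^ (k : ℕ)) =
        (s : ℂ) * ((x - ctr f) * (starRingEnd ℂ) (om ^ (k : ℕ))) +
        (t : ℂ) * ((y - ctr f) * (starRingEnd ℂ) (om ^ (k : ℕ))) := by
      have h3 : ((s : ℂ) + (t : ℂ)) = 1 := by exact_mod_cast hst
      simp only [Complex.real_smul]
      linear_combination (ctr f * (starRingEnd ℂ) (om ^ (k : ℕ))) * h3
    rw [this, Complex.add_re, Complex.re_ofReal_mul, Complex.re_ofReal_mul]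
  rw [e]
  rw [abs_le] at h1 h2 ⊢
  constructor <;> nlinarith

theorem cell_sub_closure_reg {U : Finset Fc} {h : Fc} (hh : h ∈ U) : cell h ⊆ closure (reg U) := by
  rw [Pool.Agent.H11.UC.closure_reg]
  intro x hx
  exact Pool.Agent.H11.UC.mem_creg.2 ⟨h, hh, hx⟩

theorem sl (hCH : CH) (hCU : CU) : SL := by
  intro δ hδ hδ1
  obtain ⟨K, hK⟩ := fs (δ / 3) (by positivity)
  refine ⟨K, ?_⟩
  intro U z h a ka φ p hU hz hhz hone hfc hKd hφ hφ0 hp hpa
  obtain ⟨ho1, ho2, ho3⟩ := hone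
  have hhU : h ∈ U := by rw [← hfc]; exact ho1
  obtain ⟨-, hCHφ, hball, -, -, -⟩ := hCH U z hU hz
  -- the cell of `h` in the chart
  have hcell : ∀ w ∈ closedBall (0 : ℂ) 1, φ w ∈ cell h → ‖w - p‖ ≤ δ / 3 := by
    intro w hw hwc
    refine hK U φ (ctr z) (dst U z) hU hφ hφ0 hball hKd (cell h) (convex_cell h).isPreconnected
      (cell_sub_closure_reg hhU) ?_ ?_ w hw p (by rw [mem_closedBall_zero_iff]; exact hp.le) hwc ?_
    · intro x hx y hy
      have h1 := Pool.Agent.H10.UC.cell_dist hx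
      have h2 := Pool.Agent.H10.UC.cell_dist hy
      rw [← dist_eq_norm]
      have := dist_triangle_right x y (ctr h)
      linarith
    · refine ⟨pv a, ?_, ?_⟩
      · rw [← hfc]; exact Pool.Agent.H10.UC.pv_mem_cell a ka
      · exact (vc U a).2 (ka + 1) ho2
    · rw [hpa, ← hfc]; exact Pool.Agent.H10.UC.pv_mem_cell a ka
  refine ⟨fun w hw hwc => (hcell w hw hwc).trans (by linarith), ?_⟩
  -- the new domain
  set U' : Finset Fc := comp (U \ {h}) z with hU'
  have hzU' : z ∈ U \ {h} := by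
    rw [Finset.mem_sdiff, Finset.mem_singleton]
    exact ⟨hz, fun e => hhz e.symm⟩
  have hzc : z ∈ U' := mem_comp_self hzU'
  have hdom : IsDom U' := by
    refine isDom_comp hU {h} ?_ hz ?_
    · intro f hf
      rw [Finset.mem_singleton] at hf
      subst hf
      refine ⟨f, Jn.refl f, fc a (ka + 1), ho2, ?_⟩
      have hne : ka ≠ ka + 1 := by
        intro e
        revert e
        generalize ka = t
        clear * -
        revert t
        decide
      have := adjF_fc a hne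
      rw [hfc] at this
      exact this
    · rw [Finset.mem_singleton]; exact fun e => hhz e.symm
  obtain ⟨⟨φ1, hφ1, hφ10⟩, hCHφ', -, -, -, -⟩ := hCH U' z hdom hzc
  obtain ⟨hTL1, hTL2, hTL3⟩ := Pool.Agent.H84.SM.tl U z h hU hz hhU hhz
  obtain ⟨g, hg1, hg2, hg3, hg4, hg5⟩ := chart_inv hφ
  have hcl : ∀ w ∈ closedBall (0:ℂ) 1, φ1 w ∈ closure (reg U) := by
    intro w hw
    apply hTL2
    rw [← hφ1.imgc]
    exact ⟨w, hw, rfl⟩
  have hop : ∀ w ∈ ball (0:ℂ) 1, φ1 w ∈ reg U := by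
    intro w hw
    apply hTL1
    rw [← hφ1.img]
    exact ⟨w, hw, rfl⟩
  set T1 : ℂ → ℂ := fun w => g (φ1 w) with hT1
  have z0 : (0:ℂ) ∈ ball (0:ℂ) 1 := mem_ball_self one_pos
  have z0' : (0:ℂ) ∈ closedBall (0:ℂ) 1 := mem_closedBall_self zero_le_one
  have hT10 : T1 0 = 0 := by
    show g (φ1 0) = 0
    rw [hφ10, ← hφ0, hg1 0 z0']
  have hT1d : DifferentiableOn ℂ T1 (ball 0 1) := hg4.comp hφ1.diff hop
  have hT1c : ContinuousOn T1 (closedBall 0 1) := hg3.comp hφ1.cont hcl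
  have hT1b : MapsTo T1 (ball 0 1) (ball 0 1) := fun w hw => hg5 _ (hop w hw)
  have hT1cb : MapsTo T1 (closedBall 0 1) (closedBall 0 1) := fun w hw => (hg2 _ (hcl w hw)).1
  have hT1φ : ∀ w ∈ closedBall (0:ℂ) 1, φ (T1 w) = φ1 w := fun w hw => (hg2 _ (hcl w hw)).2
  -- derivatives
  have hdφ : deriv φ 0 ≠ 0 := (hCU (reg U) φ φ hφ hφ rfl).1
  have hdφ1 : deriv φ1 0 ≠ 0 := (hCU (reg U') φ1 φ1 hφ1 hφ1 rfl).1
  have hdiffφ : DifferentiableAt ℂ φ 0 := hφ.diff.differentiableAt (isOpen_ball.mem_nhds z0)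
  have hdT1 : DifferentiableAt ℂ T1 0 := hT1d.differentiableAt (isOpen_ball.mem_nhds z0)
  have hchain : deriv φ1 0 = deriv φ 0 * deriv T1 0 := by
    have he : φ1 =ᶠ[𝓝 0] (φ ∘ T1) := by
      filter_upwards [isOpen_ball.mem_nhds z0] with w hw
      exact (hT1φ w (ball_subset_closedBall hw)).symm
    rw [he.deriv_eq, deriv_comp 0 (by rw [hT10]; exact hdiffφ) hdT1, hT10]
  have hd0 : deriv T1 0 ≠ 0 := by
    intro h0
    rw [h0, mul_zero] at hchain
    exact hdφ1 hchain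
  set m : ℝ := ‖deriv T1 0‖ with hm
  have hm0 : 0 < m := norm_pos_iff.2 hd0
  set S : ℝ := -Real.log m with hS
  have hexp : Real.exp (-S) = m := by rw [hS, neg_neg, Real.exp_log hm0]
  set c : ℂ := (m : ℂ) / deriv T1 0 with hc
  have hc1 : ‖c‖ = 1 := by
    rw [hc, norm_div, Complex.norm_real, Real.norm_eq_abs, abs_of_pos hm0, ← hm]
    exact div_self hm0.ne'
  have hcd : c * deriv T1 0 = m := by rw [hc]; field_simp
  have hcb : MapsTo (fun w : ℂ => c * w) (closedBall 0 1) (closedBall 0 1) := fun w hw => by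
    rw [mem_closedBall_zero_iff] at *; rw [norm_mul, hc1, one_mul]; exact hw
  have hbb : MapsTo (fun w : ℂ => c * w) (ball 0 1) (ball 0 1) := fun w hw => by
    rw [mem_ball_zero_iff] at *; rw [norm_mul, hc1, one_mul]; exact hw
  have hφ' : DiscChart (reg U') (fun w => φ1 (c * w)) := chart_rot hφ1 hc1
  have hφ'0 : φ1 (c * 0) = ctr z := by rw [mul_zero]; exact hφ10
  have hdT : deriv (fun w => T1 (c * w)) 0 = (m : ℂ) := by
    have h1 : HasDerivAt (fun w : ℂ => c * w) c 0 := by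
      simpa using (hasDerivAt_id (0:ℂ)).const_mul c
    have h2 : HasDerivAt T1 (deriv T1 0) (c * 0) := by rw [mul_zero]; exact hdT1.hasDerivAt
    have h3 := h2.comp (0:ℂ) h1
    have h4 := h3.deriv
    rw [← hcd, mul_comm c]
    exact h4
  have hdφ' : deriv (fun w => φ1 (c * w)) 0 = (m : ℂ) * deriv φ 0 := by
    have h1 : HasDerivAt (fun w : ℂ => c * w) c 0 := by
      simpa using (hasDerivAt_id (0:ℂ)).const_mul c
    have hd1 : DifferentiableAt ℂ φ1 0 := hφ1.diff.differentiableAt (isOpen_ball.mem_nhds z0)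
    have h2 : HasDerivAt φ1 (deriv φ1 0) (c * 0) := by rw [mul_zero]; exact hd1.hasDerivAt
    have h3 := h2.comp (0:ℂ) h1
    have h4 := h3.deriv
    rw [← hcd]
    refine h4.trans ?_
    rw [hchain]
    ring
  have himg : ∀ w ∈ ball (0 : ℂ) 1, δ < ‖w - p‖ → w ∈ (fun w => T1 (c * w)) '' ball 0 1 := by
    intro w hw hwp
    have hwn : ‖w‖ < 1 := mem_ball_zero_iff.1 hw
    have hseg : ∀ x ∈ segment ℝ (0:ℂ) w, x ∈ ball (0:ℂ) 1 ∧ φ x ∉ cell h := by
      intro x hx
      rw [segment_eq_image'] at hx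
      obtain ⟨t, ⟨ht0, ht1⟩, rfl⟩ := hx
      have ex : (0:ℂ) + t • (w - 0) = (t:ℂ) * w := by simp
      show (0:ℂ) + t • (w - 0) ∈ ball (0:ℂ) 1 ∧ φ ((0:ℂ) + t • (w - 0)) ∉ cell h
      rw [ex]
      have hn : ‖(t:ℂ) * w‖ = t * ‖w‖ := by
        rw [norm_mul, Complex.norm_real, Real.norm_eq_abs, abs_of_nonneg ht0]
      have hb1 : (t:ℂ) * w ∈ ball (0:ℂ) 1 := by
        rw [mem_ball_zero_iff, hn]
        nlinarith [norm_nonneg w]
      refine ⟨hb1, ?_⟩
      intro hc'
      have h1 := hcell _ (ball_subset_closedBall hb1) hc'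
      have h2 : 1 - δ / 3 ≤ t * ‖w‖ := by
        rw [← hn]
        have := norm_sub_norm_le p ((t:ℂ) * w)
        rw [hp, norm_sub_rev] at this
        linarith
      have h3 : ‖w - (t:ℂ) * w‖ ≤ δ / 3 := by
        have e : w - (t:ℂ) * w = ((1 - t : ℝ) : ℂ) * w := by push_cast; ring
        rw [e, norm_mul, Complex.norm_real, Real.norm_eq_abs, abs_of_nonneg (by linarith)]
        nlinarith [norm_nonneg w]
      have h4 : ‖w - p‖ ≤ ‖w - (t:ℂ) * w‖ + ‖(t:ℂ) * w - p‖ := by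
        have := norm_add_le (w - (t:ℂ) * w) ((t:ℂ) * w - p)
        rwa [sub_add_sub_cancel] at this
      linarith
    have hQ := hTL3 (φ '' segment ℝ (0:ℂ) w)
      ((convex_segment (0:ℂ) w).isPreconnected.image φ
        (hφ.cont.mono fun x hx => ball_subset_closedBall (hseg x hx).1))
      (by
        rintro _ ⟨x, hx, rfl⟩
        rw [← hφ.img]
        exact ⟨x, (hseg x hx).1, rfl⟩)
      (by
        rw [Set.disjoint_left]
        rintro _ ⟨x, hx, rfl⟩
        exact (hseg x hx).2)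
      ⟨0, left_mem_segment ℝ 0 w, hφ0⟩
    have hmem : φ w ∈ reg U' := hQ ⟨w, right_mem_segment ℝ 0 w, rfl⟩
    rw [← hφ'.img] at hmem
    obtain ⟨w', hw', he⟩ := hmem
    refine ⟨w', hw', ?_⟩
    apply hφ.inj (ball_subset_closedBall (hT1b (hbb hw'))) (ball_subset_closedBall hw)
    rw [hT1φ _ (hcb (ball_subset_closedBall hw'))]
    exact he
  refine ⟨fun w => φ1 (c * w), fun w => T1 (c * w), S, hφ', hφ'0, ?_, ?_, ?_, ?_, ?_, ?_, ?_, ?_, ?_,
    ?_, ?_, ?_⟩
  · rw [hexp]; exact hdφ'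
  · rw [(hCHφ' _ hφ' hφ'0).1, (hCHφ φ hφ hφ0).1, hexp, hdφ', norm_mul, Complex.norm_real,
      Real.norm_eq_abs, abs_of_pos hm0]
  · exact fun w hw => hT1cb (hcb hw)
  · intro w hw
    exact (hT1φ _ (hcb hw)).symm
  · exact hT1c.comp (by fun_prop) hcb
  · intro w hw w' hw' hww
    have hww' : T1 (c * w) = T1 (c * w') := hww
    have h1 : φ1 (c * w) = φ1 (c * w') := by
      rw [← hT1φ _ (hcb hw), ← hT1φ _ (hcb hw'), hww']
    have h2 := hφ'.inj hw hw' h1
    exact h2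
  · exact hT1d.comp (by fun_prop) hbb
  · exact fun w hw => hT1b (hbb hw)
  · show T1 (c * 0) = 0
    rw [mul_zero, hT10]
  · rw [hexp]; exact hdT
  · exact himg
  · -- boundary
    intro q hq hqp
    have hcomp : IsClosed ((fun w => T1 (c * w)) '' closedBall 0 1) :=
      ((isCompact_closedBall (0:ℂ) 1).image_of_continuousOn
        (hT1c.comp (by fun_prop) hcb)).isClosed
    have hO : IsOpen {w : ℂ | δ < ‖w - p‖} := isOpen_lt continuous_const (by fun_prop)
    have hqc : q ∈ closure (ball (0:ℂ) 1) := by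
      rw [closure_ball (0:ℂ) one_ne_zero, mem_closedBall_zero_iff]; exact hq.le
    have h1 : q ∈ closure ({w : ℂ | δ < ‖w - p‖} ∩ ball (0:ℂ) 1) :=
      hO.inter_closure ⟨hqp, hqc⟩
    have h2 : ({w : ℂ | δ < ‖w - p‖} ∩ ball (0:ℂ) 1) ⊆ (fun w => T1 (c * w)) '' closedBall 0 1 := by
      rintro w ⟨hw1, hw2⟩
      obtain ⟨w', hw', he⟩ := himg w hw2 hw1
      exact ⟨w', ball_subset_closedBall hw', he⟩
    obtain ⟨q', hq', he⟩ := closure_minimal h2 hcomp h1
    refine ⟨q', ?_, he⟩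
    rw [mem_closedBall_zero_iff] at hq'
    rcases hq'.lt_or_eq with h3 | h3
    · exfalso
      have h4 := hT1b (hbb (mem_ball_zero_iff.2 h3))
      have h5 : T1 (c * q') = q := he
      rw [h5, mem_ball_zero_iff, hq] at h4
      exact lt_irrefl _ h4
    · exact h3

end Pool.Agent.H93.SM
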