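import Pool.Agent.H93.SM.Iface2
import Pool.Agent.H11.UC.Edge
import Pool.Agent.H10.UC.A5a

set_option autoImplicit false
open Metric Set Filter Topology Pool.Agent.H7.UC Pool.Agent.H74.Tri

/-! MP_2e6055, SM: module VC (vertices and the region). -/

namespace Pool.Agent.H93.SM

open Pool.Agent.H11.UC in
/-- the cells which contain a vertex are the cells of its three faces -/
theorem face_of_pv_mem {v : Vx} {f : Fc} (h : pv v ∈ cell f) : ∃ k, f = fc v k := by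
  rw [Pool.Agent.H11.UC.mem_cell, P_pv, Q_pv] at h
  obtain ⟨h1, h2, h3⟩ := h
  rw [abs_le] at h1 h2 h3
  have a1 : -1 ≤ vp v - cp f := by exact_mod_cast h1.1
  have a2 : vp v - cp f ≤ 1 := by exact_mod_cast h1.2
  have b1 : -1 ≤ vq v - cq f := by exact_mod_cast h2.1
  have b2 : vq v - cq f ≤ 1 := by exact_mod_cast h2.2
  have c1 : -1 ≤ (vq v - vp v) - (cq f - cp f) := by exact_mod_cast h3.1
  have c2 : (vq v - vp v) - (cq f - cp f) ≤ 1 := by exact_mod_cast h3.2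
  have hm := cp_cq_mod f
  obtain ⟨i, j, b⟩ := v
  obtain ⟨x, y⟩ := f
  cases b
  · simp only [vp, vq, cp, cq] at *
    have : (x = i ∧ y = j + 1) ∨ (x = i ∧ y = j) ∨ (x = i + 1 ∧ y = j) := by omega
    rcases this with ⟨rfl, rfl⟩ | ⟨rfl, rfl⟩ | ⟨rfl, rfl⟩
    · exact ⟨0, rfl⟩
    · exact ⟨1, rfl⟩
    · exact ⟨2, rfl⟩
  · simp only [vp, vq, cp, cq] at *
    have : (x = i + 1 ∧ y = j) ∨ (x = i + 1 ∧ y = j + 1) ∨ (x = i ∧ y = j + 1) := by omega
    rcases this with ⟨rfl, rfl⟩ | ⟨rfl, rfl⟩ | ⟨rfl, rfl⟩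
    · exact ⟨0, rfl⟩
    · exact ⟨1, rfl⟩
    · exact ⟨2, rfl⟩

theorem vc : VC := by
  intro U v
  refine ⟨?_, ?_⟩
  · intro h
    rw [Pool.Agent.H11.UC.closure_reg, Pool.Agent.H11.UC.mem_creg] at h
    obtain ⟨f, hf, hv⟩ := h
    obtain ⟨k, rfl⟩ := face_of_pv_mem hv
    exact ⟨k, hf⟩
  · intro k hk h
    rw [Pool.Agent.H11.UC.mem_reg] at h
    exact hk (h _ (Pool.Agent.H10.UC.pv_mem_cell v k))

end Pool.Agent.H93.SM
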